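import Pool.Agent.Helper54_LOC.StmtLow

/-!
# LOC: module GREENLOW
-/

set_option autoImplicit false
set_option linter.unusedSectionVars false

open MeasureTheory ProbabilityTheory Function Filter

open scoped ENNReal BigOperators NNReal Topology

noncomputable section

namespace Pool.Agent.LOC.H48

open Pool.Agent.Anderson Pool.Agent.Loc Pool.Agent.LOC

variable {d : ℕ}

theorem walks_eq_zero : ∀ (n : ℕ) (y : Site d), n < sd 0 y → walks n y = 0 := by
  intro n
  induction n with
  | zero =>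
    intro y hy
    rw [walks, if_neg]
    rintro rfl
    rw [sd_self] at hy
    omega
  | succ n ih =>
    intro y hy
    rw [walks]
    apply Finset.sum_eq_zero
    intro i _
    have t1 := sd_triangle 0 (y + Pi.single i 1) y
    have t2 := sd_triangle 0 (y - Pi.single i 1) y
    have t3 := sd_add_single_le y i
    have t4 := sd_sub_single_le y i
    rw [sd_comm] at t3 t4
    rw [ih _ (by omega), ih _ (by omega), add_zero]

theorem sd_shift (x y : Site d) : sd 0 (y - x) = sd x y := by
  rw [sd_comm x y]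
  unfold sd
  apply Finset.sup_congr rfl
  intro i _
  simp only [Pi.zero_apply, Pi.sub_apply]
  omega

theorem SW_eq_zero {E : ℝ} {x y : Site d} {N : ℕ} (h : N ≤ sd x y) : SW E x N y = 0 := by
  unfold SW
  apply Finset.sum_eq_zero
  intro n hn
  rw [Finset.mem_range] at hn
  rw [walks_eq_zero n (y - x) (by rw [sd_shift]; omega), Nat.cast_zero, zero_div]

/-- the truncated walk expansion is a lower bound -/
theorem SW_le_gr {Λ : Finset (Site d)} {a : ℝ} (ha : 0 < a) {x : Site d} {N : ℕ}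
    (hΛ : box x N ⊆ Λ) : ∀ y ∈ Λ, SW (2 * d + a) x (N + 1) y ≤ gr 0 Λ (2 * d + a) x y := by
  have hE : 2 * (d:ℝ) < 2 * d + a := by linarith
  have hE0 : 0 < 2 * (d:ℝ) + a := by positivity
  have hx : x ∈ Λ := hΛ (by rw [mem_box, sd_self]; omega)
  intro y hy
  have h1 := max_principle hE (Λ := Λ)
    (v := fun z => gr 0 Λ (2 * d + a) x z - SW (2 * d + a) x (N + 1) z) ?_ y hy
  · linarith
  · intro z hz
    have h2 := SW_eq hE0 x (N + 1) z
    have h3 : ∑ z' ∈ Λ, hop z z' * SW (2 * d + a) x (N + 1) z' =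
        nb (SW (2 * d + a) x (N + 1)) z := by
      have h4 := sum_hop z (box z 1 ∪ Λ) Finset.subset_union_left (SW (2 * d + a) x (N + 1))
      simp only [smul_eq_mul] at h4
      have h5 : ∑ z' ∈ box z 1 ∪ Λ, hop z z' * SW (2 * d + a) x (N + 1) z' =
        nb (SW (2 * d + a) x (N + 1)) z := h4
      rw [← h5]
      apply Finset.sum_subset Finset.subset_union_right
      intro z' _ hz'
      have h6 : z' ∉ box x N := fun h => hz' (hΛ h)
      rw [mem_box] at h6
      rw [SW_eq_zero (by omega), mul_zero]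
    have h9 : (0:ℝ) ≤ (walks (N + 1) (z - x) : ℝ) / (2 * d + a) ^ (N + 1) := by positivity
    have h10 := gr_zero_eq hE hx hz
    simp_rw [mul_sub]
    rw [Finset.sum_sub_distrib, h3]
    linarith

/-- dyadic use of the resolvent identity -/
theorem gr_double (Λ : Finset (Site d)) {s : ℝ} (hs : 0 < s) {x : Site d} (hx : x ∈ Λ) :
    gr 0 Λ (2 * d + s) x x ≤ gr 0 Λ (2 * d + 2 * s) x x +
      s * ∑ y ∈ Λ, gr 0 Λ (2 * d + s) x y ^ 2 := by
  have hE : 2 * (d:ℝ) < 2 * d + s := by linarith
  have hE2 : 2 * (d:ℝ) < 2 * d + 2 * s := by linarith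
  have h1 := max_principle hE2 (Λ := Λ) (v := fun y => gr 0 Λ (2 * d + 2 * s) x y +
    s * ∑ z ∈ Λ, gr 0 Λ (2 * d + s) x z * gr 0 Λ (2 * d + 2 * s) z y -
      gr 0 Λ (2 * d + s) x y) ?_ x hx
  · have h2 : ∀ z ∈ Λ, gr 0 Λ (2 * d + s) x z * gr 0 Λ (2 * d + 2 * s) z x ≤
        gr 0 Λ (2 * d + s) x z ^ 2 := by
      intro z hz
      rw [gr_symm 0 Λ (2 * d + 2 * s) z x, sq]
      refine mul_le_mul_of_nonneg_left ?_ (gr_zero_nonneg Λ hE x z)
      refine gr_le_of_super hE2 hx (v := fun y => gr 0 Λ (2 * d + s) x y) ?_ z hz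
      intro y hy
      have h3 := gr_zero_eq hE hx hy
      have h4 := mul_nonneg hs.le (gr_zero_nonneg Λ hE x y)
      linarith
    have h3 := mul_le_mul_of_nonneg_left (Finset.sum_le_sum h2) hs.le
    linarith
  · intro y hy
    have e1 := gr_zero_eq hE hx hy
    have e2 := gr_zero_eq hE2 hx hy
    have e3 : ∑ y' ∈ Λ, hop y y' *
        (∑ z ∈ Λ, gr 0 Λ (2 * d + s) x z * gr 0 Λ (2 * d + 2 * s) z y') =
        ∑ z ∈ Λ, gr 0 Λ (2 * d + s) x z *
          ∑ y' ∈ Λ, hop y y' * gr 0 Λ (2 * d + 2 * s) z y' := by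
      simp_rw [Finset.mul_sum]
      rw [Finset.sum_comm]
      refine Finset.sum_congr rfl fun z _ => Finset.sum_congr rfl fun y' _ => by ring
    have e4 : (2 * d + 2 * s) * ∑ z ∈ Λ, gr 0 Λ (2 * d + s) x z * gr 0 Λ (2 * d + 2 * s) z y -
        ∑ z ∈ Λ, gr 0 Λ (2 * d + s) x z *
          ∑ y' ∈ Λ, hop y y' * gr 0 Λ (2 * d + 2 * s) z y' = gr 0 Λ (2 * d + s) x y := by
      rw [Finset.mul_sum, ← Finset.sum_sub_distrib]
      have e5 : ∀ z ∈ Λ, (2 * d + 2 * s) *
          (gr 0 Λ (2 * d + s) x z * gr 0 Λ (2 * d + 2 * s) z y) -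
          gr 0 Λ (2 * d + s) x z * ∑ y' ∈ Λ, hop y y' * gr 0 Λ (2 * d + 2 * s) z y' =
          if z = y then gr 0 Λ (2 * d + s) x y else 0 := by
        intro z hz
        have e6 := gr_zero_eq hE2 hz hy
        have e7 : (2 * d + 2 * s) *
          (gr 0 Λ (2 * d + s) x z * gr 0 Λ (2 * d + 2 * s) z y) -
          gr 0 Λ (2 * d + s) x z * ∑ y' ∈ Λ, hop y y' * gr 0 Λ (2 * d + 2 * s) z y' =
          gr 0 Λ (2 * d + s) x z * ((2 * d + 2 * s) * gr 0 Λ (2 * d + 2 * s) z y -
            ∑ y' ∈ Λ, hop y y' * gr 0 Λ (2 * d + 2 * s) z y') := by ring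
        rw [e7, e6]
        split_ifs with h
        · rw [h, mul_one]
        · rw [mul_zero]
      rw [Finset.sum_congr rfl e5, Finset.sum_ite_eq', if_pos hy]
    have e8 : ∑ y' ∈ Λ, hop y y' * (gr 0 Λ (2 * d + 2 * s) x y' +
        s * ∑ z ∈ Λ, gr 0 Λ (2 * d + s) x z * gr 0 Λ (2 * d + 2 * s) z y' -
          gr 0 Λ (2 * d + s) x y') =
        ∑ y' ∈ Λ, hop y y' * gr 0 Λ (2 * d + 2 * s) x y' +
        s * ∑ y' ∈ Λ, hop y y' *
          (∑ z ∈ Λ, gr 0 Λ (2 * d + s) x z * gr 0 Λ (2 * d + 2 * s) z y') -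
        ∑ y' ∈ Λ, hop y y' * gr 0 Λ (2 * d + s) x y' := by
      rw [Finset.mul_sum, ← Finset.sum_add_distrib, ← Finset.sum_sub_distrib]
      exact Finset.sum_congr rfl fun y' _ => by ring
    rw [e8, e3]
    nlinarith [e1, e2, e4]

/-- Module GREENLOW. -/
theorem greenLow : GreenLowStmt := by
  intro d hd
  have hd0 : (0:ℝ) < d := by
    have : 0 < d := by omega
    exact_mod_cast this
  set η : ℝ := 1 / (2 * d : ℝ) with hη
  have hη0 : 0 < η := by positivity
  set C₅ : ℝ := 1024 * 5 ^ d + 128 with hC₅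
  have hC₅0 : 0 < C₅ := by positivity
  set r : ℝ := (1 / 2 : ℝ) ^ η with hr
  have hr0 : 0 < r := by positivity
  have hr1 : r < 1 := Real.rpow_lt_one (by norm_num) (by norm_num) hη0
  set K : ℝ := C₅ / (1 - r) with hK
  have hK0 : 0 < K := div_pos hC₅0 (by linarith)
  refine ⟨K, hK0, fun Λ N a x ha ha1 hΛ => ?_⟩
  have hx : x ∈ Λ := hΛ (by rw [mem_box, sd_self]; omega)
  -- the main estimate for partial sums
  have key : ∀ M : ℕ, ∑ n ∈ Finset.range M, (walks n (0 : Site d) : ℝ) / (2 * d) ^ (n + 1) ≤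
      gr 0 Λ (2 * d + a) x x + (2 * d / (2 * d + a)) ^ (N + 1) / a + K * a ^ η := by
    intro M
    set B : Finset (Site d) := box 0 M with hB
    have h0B : (0 : Site d) ∈ B := by rw [hB, mem_box, sd_self]; omega
    have s1 : ∀ k : ℕ, gr 0 B (2 * d + a / 2 ^ k) 0 0 + K * (a / 2 ^ k) ^ η ≤
        gr 0 B (2 * d + a) 0 0 + K * a ^ η := by
      intro k
      induction k with
      | zero => simp
      | succ k ih =>
        refine le_trans ?_ ih
        set s : ℝ := a / 2 ^ (k + 1) with hs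
        have hs0 : 0 < s := by positivity
        have hs1 : s ≤ 1 := by
          rw [hs]
          calc a / 2 ^ (k + 1) ≤ a / 1 := by
                gcongr
                exact one_le_pow₀ (by norm_num)
            _ ≤ 1 := by rw [div_one]; exact ha1
        have hs2 : a / 2 ^ k = 2 * s := by
          rw [hs, pow_succ]
          field_simp
        have h1 := gr_double B hs0 h0B
        have h2 := gr_zero_sq hd B hs0 hs1 0
        rw [← hη, ← hC₅] at h2
        have h3 : s * ∑ y ∈ B, gr 0 B (2 * d + s) 0 y ^ 2 ≤ C₅ * s ^ η := by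
          calc s * ∑ y ∈ B, gr 0 B (2 * d + s) 0 y ^ 2 ≤ s * (C₅ * s ^ (-1 + η)) :=
                mul_le_mul_of_nonneg_left h2 hs0.le
            _ = C₅ * s ^ η := by
                rw [Real.rpow_add hs0, Real.rpow_neg_one]
                field_simp
        have h4 : s ^ η = r * (2 * s) ^ η := by
          rw [hr, ← Real.mul_rpow (by norm_num) (by positivity)]
          congr 1
          ring
        have h5 : C₅ * s ^ η + K * s ^ η ≤ K * (2 * s) ^ η := by
          have h6 : K * (1 - r) = C₅ := by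
            rw [hK]
            exact div_mul_cancel₀ C₅ (by linarith)
          have h7 : 0 ≤ (2 * s) ^ η := by positivity
          have h8 : C₅ * s ^ η ≤ C₅ * (2 * s) ^ η := by
            apply mul_le_mul_of_nonneg_left _ hC₅0.le
            exact Real.rpow_le_rpow hs0.le (by linarith) hη0.le
          calc C₅ * s ^ η + K * s ^ η ≤ C₅ * (2 * s) ^ η + K * (r * (2 * s) ^ η) := by
                rw [← h4]; linarith
            _ = K * (2 * s) ^ η := by rw [← h6]; ring
        rw [hs2]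
        linarith
    have s2 : ∀ k : ℕ, SW (2 * d + a / 2 ^ k) 0 M (0 : Site d) ≤
        gr 0 Λ (2 * d + a) x x + (2 * d / (2 * d + a)) ^ (N + 1) / a + K * a ^ η := by
      intro k
      have hk : 0 < a / 2 ^ k := by positivity
      have h1 : SW (2 * d + a / 2 ^ k) 0 M (0 : Site d) ≤
          SW (2 * d + a / 2 ^ k) 0 (M + 1) (0 : Site d) := by
        unfold SW
        rw [Finset.sum_range_succ]
        have : 0 ≤ (walks M ((0 : Site d) - 0) : ℝ) / (2 * d + a / 2 ^ k) ^ (M + 1) := by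
          positivity
        linarith
      have h2 := SW_le_gr hk (Λ := B) (x := 0) (N := M) le_rfl 0 h0B
      have h3 := s1 k
      have h4 := gr_le_SW B ha h0B h0B (N + 1)
      have h5 : SW (2 * d + a) 0 (N + 1) (0 : Site d) = SW (2 * d + a) x (N + 1) x := by
        unfold SW
        rw [sub_self, sub_self]
      have h6 := SW_le_gr ha hΛ x hx
      have h7 : 0 ≤ K * (a / 2 ^ k) ^ η := by positivity
      linarith
    have s3 : Tendsto (fun k : ℕ => SW (2 * d + a / 2 ^ k) 0 M (0 : Site d)) atTop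
        (𝓝 (∑ n ∈ Finset.range M, (walks n (0 : Site d) : ℝ) / (2 * d) ^ (n + 1))) := by
      have h1 : Tendsto (fun k : ℕ => 2 * (d:ℝ) + a / 2 ^ k) atTop (𝓝 (2 * d)) := by
        have h2 : Tendsto (fun k : ℕ => a / (2:ℝ) ^ k) atTop (𝓝 0) :=
          (tendsto_pow_atTop_atTop_of_one_lt (by norm_num)).const_div_atTop a
        have h3 := h2.const_add (2 * (d:ℝ))
        rwa [add_zero] at h3
      unfold SW
      rw [sub_self]
      apply tendsto_finsetSum
      intro n _
      apply Tendsto.div tendsto_const_nhds (h1.pow (n + 1))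
      positivity
    exact le_of_tendsto' s3 s2
  have hw : watson d ≤ gr 0 Λ (2 * d + a) x x + (2 * d / (2 * d + a)) ^ (N + 1) / a +
      K * a ^ η := by
    unfold watson
    exact Real.tsum_le_of_sum_range_le (fun n => by positivity) key
  have h1 : (2 * d / (2 * d + a)) ^ (N + 1) / a ≤ (1 / a) * (1 + a / (2 * d)) ^ (-(N : ℝ)) := by
    have e1 : (1 + a / (2 * d)) ^ (-(N : ℝ)) = (2 * d / (2 * d + a)) ^ N := by
      rw [Real.rpow_neg (by positivity), Real.rpow_natCast, ← inv_pow]
      congr 1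
      field_simp
    rw [e1, div_eq_mul_one_div, mul_comm (1 / a)]
    apply mul_le_mul_of_nonneg_right _ (by positivity)
    apply pow_le_pow_of_le_one (by positivity) _ (Nat.le_succ N)
    rw [div_le_one (by positivity)]
    linarith
  linarith

end Pool.Agent.LOC.H48
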