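import Pool.Agent.Helper54_LOC.Stmt

/-!
# LOC: module UP
-/

set_option autoImplicit false
set_option linter.unusedSectionVars false

open MeasureTheory ProbabilityTheory Function Filter

open scoped ENNReal BigOperators NNReal Topology

noncomputable section

namespace Pool.Agent.LOC.H48

open Pool.Agent.Anderson Pool.Agent.Loc Pool.Agent.LOC

variable {d : ℕ}

/-- the probability that the form bound fails in boxes of radius `|σ|⁻³` -/
theorem bad_small (hd : 1 ≤ d) {G C₅ η : ℝ} (hG : 0 < G) (hC₅ : 0 < C₅) (hη : 0 < η)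
    (hη1 : η ≤ 1)
    (hD3 : ∀ (Λ : Finset (Site d)) (a : ℝ) (x : Site d), 0 < a → gr 0 Λ (2 * d + a) x x ≤ G)
    (hD5 : ∀ (Λ : Finset (Site d)) (a : ℝ) (x : Site d), 0 < a → a ≤ 1 →
      ∑ y ∈ Λ, gr 0 Λ (2 * d + a) x y ^ 2 ≤ C₅ * a ^ (-1 + η)) :
    ∃ σ₀ : ℝ, 0 < σ₀ ∧ ∀ σ : ℝ, σ ≠ 0 → |σ| < σ₀ → ∃ θ : ℝ, θ ≤ 1 ∧
      ∀ L : ℕ, (L : ℝ) ≤ |σ|⁻¹ ^ 3 → ∀ (x : Site d) (W : Finset (Site d)), W ⊆ box x L →
        PL (gl σ) W {V | ¬ GE V W (G * σ ^ 2 + G * |σ| ^ (2 + η / 12)) θ} ≤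
          ENNReal.ofReal (1 / 4) := by
  set γ : ℝ := η / 12 with hγdef
  have hγ : 0 < γ := by positivity
  have hγ1 : γ ≤ 1 / 12 := by rw [hγdef]; linarith only [hη1]
  set K : ℝ := 4 * 3 ^ d with hK
  have hK0 : 0 < K := by positivity
  set Q : ℝ := 1440 * 27 * √(C₅ * G ^ (-1 + η)) with hQ
  have hQ0 : 0 < Q := by positivity
  -- the eventual conditions
  have ev1 : ∀ᶠ τ : ℝ in 𝓝[>] 0, τ < 1 := by
    filter_upwards [Ioo_mem_nhdsGT (show (0:ℝ) < 1 by norm_num)] with τ hτ using hτ.2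
  have ev2 : ∀ᶠ τ : ℝ in 𝓝[>] 0, 2 * G * τ ^ 2 < min 1 (1 / G) := by
    have h1 : Tendsto (fun τ : ℝ => 2 * G * τ ^ 2) (𝓝 0) (𝓝 (2 * G * 0 ^ 2)) := by
      apply Continuous.tendsto; fun_prop
    have h2 : Tendsto (fun τ : ℝ => 2 * G * τ ^ 2) (𝓝[>] 0) (𝓝 0) := by
      rw [show (2 * G * 0 ^ 2 : ℝ) = 0 by ring] at h1
      exact h1.mono_left nhdsWithin_le_nhds
    exact h2.eventually_lt_const (by positivity)
  have ev3 : ∀ᶠ τ : ℝ in 𝓝[>] 0, Q * τ ^ (η / 2) < 1 := by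
    have h1 : Tendsto (fun τ : ℝ => Q * τ ^ (η / 2)) (𝓝 0) (𝓝 (Q * 0 ^ (η / 2))) := by
      apply Tendsto.const_mul
      exact (Real.continuousAt_rpow_const 0 (η / 2) (Or.inr (by positivity))).tendsto
    rw [Real.zero_rpow (by positivity), mul_zero] at h1
    exact (h1.mono_left nhdsWithin_le_nhds).eventually_lt_const (by norm_num)
  have ev4 : ∀ᶠ τ : ℝ in 𝓝[>] 0,
      K * ((τ⁻¹) ^ (3 * d) * Real.exp (-(1 / 4) * (τ⁻¹) ^ γ)) < 1 / 4 := by
    have h1 := (tendsto_aux (3 * d) (show (0:ℝ) < 1 / 4 by norm_num) hγ).const_mul K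
    rw [mul_zero] at h1
    exact h1.eventually_lt_const (by norm_num)
  have evall := ev1.and (ev2.and (ev3.and ev4))
  rw [eventually_nhdsWithin_iff, Metric.eventually_nhds_iff] at evall
  obtain ⟨σ₀, hσ₀, hall⟩ := evall
  refine ⟨σ₀, hσ₀, fun σ hσ hσσ => ?_⟩
  set τ : ℝ := |σ| with hτdef
  have hτ : 0 < τ := abs_pos.2 hσ
  obtain ⟨h1, h2, h3, h4⟩ := hall (y := τ) (by rw [Real.dist_eq, sub_zero, abs_of_pos hτ]; exact hσσ)
    hτ
  have hσ2 : σ ^ 2 = τ ^ 2 := by rw [hτdef, sq_abs]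
  set t : ℝ := τ⁻¹ with htdef
  have ht1 : 1 ≤ t := (one_le_inv₀ hτ).2 h1.le
  have ht0 : 0 < t := by linarith only [ht1]
  have htτ : t * τ = 1 := inv_mul_cancel₀ hτ.ne'
  set δ : ℝ := τ ^ γ with hδdef
  have hδ0 : 0 < δ := by positivity
  have hδ1 : δ ≤ 1 := Real.rpow_le_one hτ.le h1.le hγ.le
  set a : ℝ := G * τ ^ 2 * (1 + δ) with hadef
  have ha : 0 < a := by positivity
  have haeq : G * σ ^ 2 + G * τ ^ (2 + γ) = a := by
    rw [hσ2, Real.rpow_add hτ, Real.rpow_two, hadef, hδdef]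
    ring
  have ha2 : a ≤ 2 * G * τ ^ 2 := by
    rw [hadef]
    nlinarith only [hδ1, mul_pos hG (pow_pos hτ 2)]
  have ha1 : a ≤ 1 := ha2.trans (h2.le.trans (min_le_left _ _))
  have hag : a * G ≤ 1 := by
    have : a ≤ 1 / G := ha2.trans (h2.le.trans (min_le_right _ _))
    rwa [le_div_iff₀ hG] at this
  have hageq : G * τ ^ 2 ≤ a := by
    rw [hadef]
    nlinarith only [hδ0, mul_pos hG (pow_pos hτ 2)]
  have hq : σ ^ 2 * G / a = 1 / (1 + δ) := by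
    rw [hσ2, hadef]
    field_simp
  -- the parameters
  set θ : ℝ := 1 - δ / 8 with hθ
  have hθ0 : 0 < θ := by rw [hθ]; linarith only [hδ1]
  have hθ1 : θ < 1 := by rw [hθ]; linarith only [hδ0]
  have ht3 : 1 ≤ t ^ 3 := one_le_pow₀ ht1
  set p : ℕ := ⌈t ^ (2 * γ)⌉₊ + 1 with hp
  have htγ : 1 ≤ t ^ (2 * γ) := Real.one_le_rpow ht1 (by positivity)
  have hpge : t ^ (2 * γ) ≤ p := by
    rw [hp]
    push_cast
    have := Nat.le_ceil (t ^ (2 * γ))
    linarith only [this]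
  have hp2 : 2 ≤ p := by
    rw [hp]
    have : 0 < ⌈t ^ (2 * γ)⌉₊ := Nat.ceil_pos.2 (by linarith only [htγ])
    omega
  have hple : (p:ℝ) ≤ 3 * t ^ (2 * γ) := by
    rw [hp]
    push_cast
    have := (Nat.ceil_lt_add_one (show 0 ≤ t ^ (2 * γ) by positivity)).le
    linarith only [this, htγ]
  have hθq : σ ^ 2 * G / a / θ ^ 2 ≤ Real.exp (-(δ / 4)) := by
    rw [hq, div_div, Real.exp_neg, ← one_div]
    apply one_div_le_one_div_of_le (Real.exp_pos _)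
    have e1 := exp_sub_one_le (x := δ / 4) (by positivity) (by linarith only [hδ1])
    have e2 : 1 + δ / 2 ≤ (1 + δ) * θ ^ 2 := by
      rw [hθ]
      nlinarith only [mul_nonneg hδ0.le (sub_nonneg.2 hδ1), mul_pos hδ0 hδ0,
        mul_pos hδ0 (mul_pos hδ0 hδ0)]
    linarith only [e2, e1]
  have hpδ : t ^ γ / 4 ≤ p * (δ / 4) := by
    have e1 : t ^ γ = t ^ (2 * γ) * δ := by
      rw [hδdef, show (2 * γ) = γ + γ by ring, Real.rpow_add ht0, mul_assoc,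
        ← Real.mul_rpow ht0.le hτ.le, htτ, Real.one_rpow, mul_one]
    rw [e1]
    have := mul_le_mul_of_nonneg_right hpge hδ0.le
    linarith only [this]
  have hθqp : (σ ^ 2 * G / a / θ ^ 2) ^ p ≤ Real.exp (-(t ^ γ / 4)) := by
    calc (σ ^ 2 * G / a / θ ^ 2) ^ p ≤ (Real.exp (-(δ / 4))) ^ p := by
          apply pow_le_pow_left₀ (by positivity) hθq
      _ = Real.exp (-(p * (δ / 4))) := by
          rw [← Real.exp_nat_mul]; congr 1; ring
      _ ≤ _ := Real.exp_le_exp.2 (by linarith only [hpδ])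
  have hsmall : 1440 * (p : ℝ) ^ 3 * √(σ ^ 2 * (C₅ * a ^ (-1 + η))) ≤ 1 := by
    have e1 : a ^ (-1 + η) ≤ (G * τ ^ 2) ^ (-1 + η) :=
      Real.rpow_le_rpow_of_nonpos (by positivity) hageq (by linarith only [hη1])
    have e2 : (τ ^ 2) * (G * τ ^ 2) ^ (-1 + η) = G ^ (-1 + η) * (τ ^ η) ^ 2 := by
      rw [Real.mul_rpow hG.le (by positivity)]
      have e3 : τ ^ 2 * (τ ^ 2) ^ (-1 + η) = (τ ^ η) ^ 2 := by
        rw [← Real.rpow_natCast τ 2, ← Real.rpow_mul hτ.le, ← Real.rpow_add hτ,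
          ← Real.rpow_natCast (τ ^ η) 2, ← Real.rpow_mul hτ.le]
        congr 1
        push_cast
        ring
      calc τ ^ 2 * (G ^ (-1 + η) * (τ ^ 2) ^ (-1 + η)) =
          G ^ (-1 + η) * (τ ^ 2 * (τ ^ 2) ^ (-1 + η)) := by ring
        _ = _ := by rw [e3]
    have e4 : √(σ ^ 2 * (C₅ * a ^ (-1 + η))) ≤ √(C₅ * G ^ (-1 + η)) * τ ^ η := by
      calc √(σ ^ 2 * (C₅ * a ^ (-1 + η))) ≤ √(C₅ * G ^ (-1 + η) * (τ ^ η) ^ 2) := by
            apply Real.sqrt_le_sqrt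
            rw [hσ2]
            calc τ ^ 2 * (C₅ * a ^ (-1 + η)) ≤ τ ^ 2 * (C₅ * (G * τ ^ 2) ^ (-1 + η)) := by gcongr
              _ = C₅ * (τ ^ 2 * (G * τ ^ 2) ^ (-1 + η)) := by ring
              _ = C₅ * G ^ (-1 + η) * (τ ^ η) ^ 2 := by rw [e2]; ring
        _ = _ := by
            rw [Real.sqrt_mul (by positivity), Real.sqrt_sq (by positivity)]
    have e5 : (p:ℝ) ^ 3 ≤ 27 * t ^ (6 * γ) := by
      calc (p:ℝ) ^ 3 ≤ (3 * t ^ (2 * γ)) ^ 3 := by gcongr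
        _ = 27 * (t ^ (2 * γ)) ^ 3 := by ring
        _ = 27 * t ^ (6 * γ) := by
            rw [← Real.rpow_natCast (t ^ (2 * γ)) 3, ← Real.rpow_mul ht0.le]
            congr 2
            push_cast
            ring
    have e6 : t ^ (6 * γ) * τ ^ η = τ ^ (η / 2) := by
      rw [htdef, Real.inv_rpow hτ.le, ← Real.rpow_neg hτ.le, ← Real.rpow_add hτ]
      congr 1
      rw [hγdef]; ring
    calc 1440 * (p : ℝ) ^ 3 * √(σ ^ 2 * (C₅ * a ^ (-1 + η)))
        ≤ 1440 * (27 * t ^ (6 * γ)) * (√(C₅ * G ^ (-1 + η)) * τ ^ η) := by gcongr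
      _ = Q * (t ^ (6 * γ) * τ ^ η) := by rw [hQ]; ring
      _ = Q * τ ^ (η / 2) := by rw [e6]
      _ ≤ 1 := h3.le
  refine ⟨θ, hθ1.le, fun L hL x W hW => ?_⟩
  rw [haeq]
  refine (bad_prob (g := G) (κ₂ := C₅ * a ^ (-1 + η)) ha hG (by positivity)
    (fun x => hD3 W a x ha) (fun x => hD5 W a x ha ha1) hσ hag ?_ ?_ hp2 hsmall hθ0).trans ?_
  · rw [hq]
    apply one_div_le_one_div_of_le (by positivity)
    linarith only [hδ1]
  · rw [hq, div_le_one (by positivity)]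
    linarith only [hδ0]
  · apply ENNReal.ofReal_le_ofReal
    have e1 : (W.card : ℝ) ≤ (3 * t ^ 3) ^ d := by
      have e2 := card_le_of_subset_box hW
      calc (W.card : ℝ) ≤ (((2 * L + 1) ^ d : ℕ) : ℝ) := by exact_mod_cast e2
        _ = (2 * (L:ℝ) + 1) ^ d := by push_cast; ring
        _ ≤ (3 * t ^ 3) ^ d := by
            apply pow_le_pow_left₀ (by positivity)
            linarith only [hL, ht3]
    calc 4 * (W.card : ℝ) * (σ ^ 2 * G / a / θ ^ 2) ^ p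
        ≤ 4 * (3 * t ^ 3) ^ d * Real.exp (-(t ^ γ / 4)) := by gcongr
      _ = K * (t ^ (3 * d) * Real.exp (-(1 / 4) * t ^ γ)) := by
          rw [hK, mul_pow, ← pow_mul, show -(t ^ γ / 4) = -(1 / 4) * t ^ γ by ring]
          ring
      _ ≤ 1 / 4 := h4.le

/-- Module UP. -/
theorem up : UpStmt := by
  intro d hd
  have hd0 : (0:ℝ) < d := by
    have : 0 < d := by omega
    exact_mod_cast this
  have hd3 : (3:ℝ) ≤ d := by exact_mod_cast hd
  obtain ⟨σ₀, hσ₀, h⟩ := bad_small (d := d) (by omega) (watson_pos hd)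
    (C₅ := 1024 * 5 ^ d + 128) (η := 1 / (2 * d : ℝ)) (by positivity) (by positivity)
    (by
      rw [div_le_one (by positivity)]
      linarith only [hd3])
    (fun Λ a x ha => gr_zero_diag hd Λ ha x)
    (fun Λ a x ha ha1 => gr_zero_sq hd Λ ha ha1 x)
  have hexp : 1 / (2 * d : ℝ) / 12 = 1 / (24 * d : ℝ) := by field_simp; norm_num
  rw [hexp] at h
  refine ⟨σ₀, hσ₀, fun σ hσ hσσ L hL Ω _ P _ ξ hm hlaw hind => ?_⟩
  obtain ⟨θ, hθ1, hbad⟩ := h σ hσ hσσ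
  have h1 := hbad L hL 0 (box 0 L) le_rfl
  set a : ℝ := watson d * σ ^ 2 + watson d * |σ| ^ (2 + 1 / (24 * d : ℝ)) with ha
  have ha0 : 0 ≤ a := by
    have := watson_pos hd
    positivity
  have h2 := transfer (P := P) (ν := gl σ) (V := fun y ω => σ * ξ y ω) (Λ := box 0 L)
    (fun z => (hm z).const_mul σ) (by
      intro z
      unfold gl γ1
      rw [← hlaw z, Measure.map_map (by fun_prop) (hm z)]
      rfl) (hind.comp (fun _ t => σ * t) fun _ => by fun_prop)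
    (measurableSet_GE (box 0 L) a θ).compl (by
      intro W W' hW
      refine not_congr ?_
      simp only [Set.mem_ofPred_eq, GE]
      refine forall_congr' fun u => ?_
      rw [Finset.sum_congr rfl fun y hy => by rw [hW y hy]])
  refine le_trans (measure_mono ?_) (h2.trans_le h1)
  intro ω hω
  simp only [Set.mem_ofPred_eq, Set.mem_compl_iff] at hω ⊢
  intro hGE
  apply hω
  intro u
  have h3 := hGE u
  have h4 := abs_hf_le (box 0 L) u
  have h5 : 0 ≤ ∑ y ∈ box (0 : Site d) L, u y ^ 2 := Finset.sum_nonneg fun y _ => sq_nonneg _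
  have h6 : 0 ≤ (2 * d + a) * ∑ y ∈ box (0 : Site d) L, u y ^ 2 - hf (box 0 L) u := by
    have := le_abs_self (hf (box (0 : Site d) L) u)
    nlinarith only [this, h5, h4, ha0]
  have h7 := le_abs_self (∑ y ∈ box (0 : Site d) L, (σ * ξ y ω) * u y ^ 2)
  have h8 : θ * ((2 * d + a) * ∑ y ∈ box (0 : Site d) L, u y ^ 2 - hf (box 0 L) u) ≤
      (2 * d + a) * ∑ y ∈ box (0 : Site d) L, u y ^ 2 - hf (box 0 L) u := by
    nlinarith only [h6, hθ1]
  have h9 : (2 * d + watson d * σ ^ 2 + watson d * |σ| ^ (2 + 1 / (24 * d : ℝ))) = 2 * d + a := by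
    rw [ha]; ring
  rw [h9]
  linarith only [h8, h7, h3]

end Pool.Agent.LOC.H48
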